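import Pool.Agent.Helper87.FT.Chain
import Pool.Agent.Helper18.RC.Count

/-!
# Algebraic independence of `log α, α ^ β_1, ..., α ^ β_n` for almost all tuples of a number field

`m n = 3 ^ n * (9 * n + 14) - (3 * n + 1)`.
First part: for every number field `K` of degree `d` and every algebraic `α ≠ 0, 1` the tuples in `K ^ n` for
which the numbers are dependent satisfy `β_i ∈ V_i(β_1, ..., β_(i-1))` for some `i`, where these are subspaces
of `K` of codimension at least `⌊d / m n⌋`. Second part: of the `N ^ (n d)` tuples with coordinates in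
`{0, ..., N - 1}` with respect to bases at most `n N ^ (n d - ⌊d / m n⌋)` are exceptional.
-/

namespace Pool.Agent.Results.MP_23715a_nt.FieldTuples

open Pool.Agent.Helper18.RC Pool.Agent.Helper87.FT

/-- The size of the rectangle. -/
def m (n : ℕ) : ℕ := 3 ^ n * (9 * n + 14) - (3 * n + 1)

theorem m_eq (n : ℕ) : m n = mm n n := by
  have := mm_closed n n
  unfold m
  omega

theorem log_facts {α : ℂ} (hα : IsAlgebraic ℚ α) (h0 : α ≠ 0) (h1 : α ≠ 1) :
    Complex.log α ≠ 0 ∧ Transcendental ℚ (Complex.log α) := by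
  have hexp : Complex.exp (Complex.log α) = α := Complex.exp_log h0
  have hθ0 : Complex.log α ≠ 0 := by
    intro h
    rw [h, Complex.exp_zero] at hexp
    exact h1 hexp.symm
  exact ⟨hθ0, fun h => hermite_lindemann hθ0 h (by rw [hexp]; exact hα)⟩

open scoped Classical in
theorem result (n : ℕ) :
    (∀ (K : IntermediateField ℚ ℂ), FiniteDimensional ℚ K →
      ∀ α : ℂ, IsAlgebraic ℚ α → α ≠ 0 → α ≠ 1 →
      ∃ V : Fin n → (Fin n → K) → Submodule ℚ K,
        (∀ (i : Fin n) (β β' : Fin n → K), (∀ j < i, β j = β' j) → V i β = V i β') ∧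
        (∀ (i : Fin n) (β : Fin n → K),
          Module.finrank ℚ (V i β) + Module.finrank ℚ K / m n ≤ Module.finrank ℚ K) ∧
        ∀ β : Fin n → K, (∀ i, β i ∉ V i β) → AlgebraicIndependent ℚ
          (Fin.cons (Complex.log α) (fun i => α ^ (β i : ℂ)) : Fin (n + 1) → ℂ)) ∧
    (∀ (d N : ℕ), 1 ≤ N → ∀ (K : Fin n → IntermediateField ℚ ℂ)
      (ω : (i : Fin n) → Module.Basis (Fin d) ℚ (K i)) (γ δ : Fin n → ℂ),
      (∀ i, IsAlgebraic ℚ (γ i)) → (∀ i, γ i ≠ 0) →
      ∀ α : ℂ, IsAlgebraic ℚ α → α ≠ 0 → α ≠ 1 →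
      (Finset.univ.filter fun x : Fin n → Fin d → Fin N => ¬ AlgebraicIndependent ℚ
        (Fin.cons (Complex.log α)
          (fun i => α ^ (δ i + γ i * ∑ j, ((x i j : ℕ) : ℂ) * (ω i j : ℂ))) :
            Fin (n + 1) → ℂ)).card * N ^ (d / m n) ≤ n * N ^ (n * d)) := by
  constructor
  · intro K hK α hα h0 h1
    obtain ⟨hθ0, htr⟩ := log_facts hα h0 h1
    set θ := Complex.log α with hθ
    refine ⟨fun i β => badSpace K θ 1 (gens K θ i β), ?_, ?_, ?_⟩
    · intro i β β' h
      simp only
      rw [gens_congr K θ i β β' h]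
    · intro i β
      rw [m_eq]
      exact codim K (Module.finBasis ℚ K) hθ0 isAlgebraic_one one_ne_zero _
    · intro β hβ
      have h := chain K θ htr β hβ n le_rfl
      have heq : (fun i => α ^ ((β i : K) : ℂ)) = fun i => Complex.exp (θ * ((β i : K) : ℂ)) := by
        funext i
        rw [Complex.cpow_def_of_ne_zero h0]
      rw [heq]
      exact h
  · intro d N hN K ω γ δ hγ hγ0 α hα h0 h1
    obtain ⟨hθ0, htr⟩ := log_facts hα h0 h1
    set θ := Complex.log α with hθ
    have hcount := count_bad (ι := Fin d → Fin N) θ htr n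
      ((N : ℝ) ^ (d - d / mm n n)) ((N : ℝ) ^ d)
      (by positivity) (by positivity) n le_rfl
      (fun _ : Fin n => Finset.univ)
      (fun i x => Complex.exp (θ * (δ i + γ i * ∑ j, ((x j : ℕ) : ℂ) * (ω i j : ℂ))))
      (fun i w => by
        exact_mod_cast box_count hN (K i) (ω i) hθ0 (hγ i) (hγ0 i) w)
      (fun i => by
        rw [Finset.card_univ, Fintype.card_fun, Fintype.card_fin, Fintype.card_fin]
        push_cast
        exact le_rfl)
    rw [Fintype.piFinset_univ] at hcount
    have heq : ∀ x : Fin n → Fin d → Fin N,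
        (fun i => α ^ (δ i + γ i * ∑ j, ((x i j : ℕ) : ℂ) * (ω i j : ℂ))) =
        fun i => Complex.exp (θ * (δ i + γ i * ∑ j, ((x i j : ℕ) : ℂ) * (ω i j : ℂ))) := by
      intro x
      funext i
      rw [Complex.cpow_def_of_ne_zero h0]
    simp only [heq]
    rw [m_eq]
    have hcount' : (Finset.univ.filter fun x : Fin n → Fin d → Fin N => ¬ AlgebraicIndependent ℚ
        (Fin.cons θ (fun i => Complex.exp
          (θ * (δ i + γ i * ∑ j, ((x i j : ℕ) : ℂ) * (ω i j : ℂ)))) :
            Fin (n + 1) → ℂ)).card ≤ n * (N ^ d) ^ (n - 1) * N ^ (d - d / mm n n) := by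
      exact_mod_cast hcount
    refine (Nat.mul_le_mul_right _ hcount').trans (le_of_eq ?_)
    rcases Nat.eq_zero_or_pos n with hn | hn
    · subst hn
      simp
    · rw [mul_assoc, mul_assoc, ← pow_add, Nat.sub_add_cancel (Nat.div_le_self _ _), ← pow_succ,
        Nat.sub_add_cancel hn, ← pow_mul, mul_comm d n]

end Pool.Agent.Results.MP_23715a_nt.FieldTuples
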