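import Pool.Agent.Helper18.RC.RectCount
import Pool.Agent.Helper18.RC.HL

/-!
# Algebraic independence of `log α` and `α ^ (γ β ^ s)` for almost all `n`-tuples of exponents `s`

`PowerTuples.result`: for every `n` there are `C` and `δ > 0` such that for every algebraic number `β` of
degree `d`, all algebraic `γ_1, ..., γ_n ≠ 0`, every algebraic `α ≠ 0, 1` and every interval
`I = [s₀, s₀ + d)` of `d` integers, at most `C d ^ (n - δ)` of the `d ^ n` tuples `(s_1, ..., s_n) ∈ I ^ n` have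
`log α, α ^ (γ_1 β ^ s_1), ..., α ^ (γ_n β ^ s_n)` algebraically dependent.
-/

namespace Pool.Agent.Results.MP_23715a_nt.PowerTuples

open Pool.Agent.Helper18.RC

open scoped Classical in
theorem result (n : ℕ) : ∃ C δ : ℝ, 0 < δ ∧
    ∀ β : ℂ, IsAlgebraic ℚ β → β ≠ 0 →
    ∀ γ : Fin n → ℂ, (∀ i, IsAlgebraic ℚ (γ i)) → (∀ i, γ i ≠ 0) →
    ∀ α : ℂ, IsAlgebraic ℚ α → α ≠ 0 → α ≠ 1 → ∀ s₀ : ℤ,
      ((((Fintype.piFinset fun _ : Fin n =>
          Finset.Ico s₀ (s₀ + (minpoly ℚ β).natDegree)).filter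
        fun s : Fin n → ℤ => ¬ AlgebraicIndependent ℚ
          (Fin.cons (Complex.log α) (fun i => α ^ (γ i * β ^ (s i))) :
            Fin (n + 1) → ℂ)).card : ℕ) : ℝ) ≤
        C * ((minpoly ℚ β).natDegree : ℝ) ^ ((n : ℝ) - δ) := by
  have hm := mr_pos n
  have hmR : (1 : ℝ) ≤ mr n := by exact_mod_cast hm
  refine ⟨n * (3 * ((mr n : ℝ) ^ 2 + mr n)), 1 / (mr n : ℝ), by positivity, ?_⟩
  intro β hβ hβ0 γ hγ hγ0 α hα h0 h1 s₀
  set d := (minpoly ℚ β).natDegree with hd
  have hd1 : 1 ≤ d := minpoly.natDegree_pos hβ.isIntegral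
  have hdR : (1 : ℝ) ≤ d := by exact_mod_cast hd1
  have hd0 : (0 : ℝ) < d := by linarith
  set θ := Complex.log α with hθ
  have hexp : Complex.exp θ = α := Complex.exp_log h0
  have hθ0 : θ ≠ 0 := by
    intro h
    rw [h, Complex.exp_zero] at hexp
    exact h1 hexp.symm
  have htr : Transcendental ℚ θ := fun h => hermite_lindemann hθ0 h (by rw [hexp]; exact hα)
  have hli : LinearIndependent ℚ (fun i : Fin d => β ^ (i : ℕ)) := linearIndependent_pow β
  have hcount := count_bad (ι := ℤ) θ htr n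
    (3 * ((mr n : ℝ) ^ 2 + mr n) * (d : ℝ) ^ (1 - 1 / (mr n : ℝ))) d
    (by positivity) (by positivity) n le_rfl
    (fun _ : Fin n => Finset.Ico s₀ (s₀ + d))
    (fun i s => Complex.exp (θ * (γ i * β ^ s)))
    (fun i w => power_count n d hd1 β (γ i) hβ0 (hγ0 i) hβ (hγ i) hli s₀ θ hθ0 w)
    (fun i => by
      rw [Int.card_Ico]
      simp)
  have heq : ∀ s : Fin n → ℤ, (fun i => α ^ (γ i * β ^ (s i))) =
      fun i => Complex.exp (θ * (γ i * β ^ (s i))) := by
    intro s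
    funext i
    rw [Complex.cpow_def_of_ne_zero h0]
  simp only [heq]
  refine hcount.trans (le_of_eq ?_)
  rcases Nat.eq_zero_or_pos n with hn | hn
  · subst hn
    simp
  · have h4 : (d : ℝ) ^ (n - 1) * (d : ℝ) ^ (1 - 1 / (mr n : ℝ)) =
        (d : ℝ) ^ ((n : ℝ) - 1 / (mr n : ℝ)) := by
      rw [← Real.rpow_natCast, ← Real.rpow_add hd0]
      congr 1
      rw [Nat.cast_sub hn]
      push_cast
      ring
    rw [← h4]
    ring

end Pool.Agent.Results.MP_23715a_nt.PowerTuples
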