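import Pool.Agent.Helper18.RC.RectCount
import Pool.Agent.Helper18.RC.HL

/-!
# Algebraic independence of `log α` and `α ^ (e f)` for almost all `n`-tuples of pairs `(e, f)`

`ProductTuples.result`: for every `n` there are `C` and `δ > 0` such that for every `q`, all families
`e_i, f_i : {1..q} → ℂ` of algebraic numbers (`i = 1..n`), each linearly independent over `ℚ`, and every
algebraic `α ≠ 0, 1`: at most `C q ^ (2 n - δ)` of the `q ^ (2 n)` tuples `((a_1, b_1), ..., (a_n, b_n))` have
`log α, α ^ (e_1(a_1) f_1(b_1)), ..., α ^ (e_n(a_n) f_n(b_n))` algebraically dependent.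
-/

namespace Pool.Agent.Results.MP_23715a_nt.ProductTuples

open Pool.Agent.Helper18.RC

open scoped Classical in
theorem result (n : ℕ) : ∃ C δ : ℝ, 0 < δ ∧
    ∀ (q : ℕ) (e f : Fin n → Fin q → ℂ),
    (∀ i a, IsAlgebraic ℚ (e i a)) → (∀ i a, IsAlgebraic ℚ (f i a)) →
    (∀ i, LinearIndependent ℚ (e i)) → (∀ i, LinearIndependent ℚ (f i)) →
    ∀ α : ℂ, IsAlgebraic ℚ α → α ≠ 0 → α ≠ 1 →
      (((Finset.univ.filter fun s : Fin n → Fin q × Fin q => ¬ AlgebraicIndependent ℚ
          (Fin.cons (Complex.log α) (fun i => α ^ (e i (s i).1 * f i (s i).2)) :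
            Fin (n + 1) → ℂ)).card : ℕ) : ℝ) ≤ C * (q : ℝ) ^ (2 * (n : ℝ) - δ) := by
  have hm := mr_pos n
  have hmR : (1 : ℝ) ≤ mr n := by exact_mod_cast hm
  refine ⟨n * ((mr n : ℝ) ^ 2 + mr n), 1 / (mr n : ℝ), by positivity, ?_⟩
  intro q e f he hf hel hfl α hα h0 h1
  set θ := Complex.log α with hθ
  have hexp : Complex.exp θ = α := Complex.exp_log h0
  have hθ0 : θ ≠ 0 := by
    intro h
    rw [h, Complex.exp_zero] at hexp
    exact h1 hexp.symm
  have htr : Transcendental ℚ θ := fun h => hermite_lindemann hθ0 h (by rw [hexp]; exact hα)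
  have hcount := count_bad (ι := Fin q × Fin q) θ htr n
    (((mr n : ℝ) ^ 2 + mr n) * (q : ℝ) ^ (2 - 1 / (mr n : ℝ))) ((q : ℝ) ^ 2)
    (by positivity) (by positivity) n le_rfl
    (fun _ : Fin n => Finset.univ)
    (fun i p => Complex.exp (θ * (e i p.1 * f i p.2)))
    (fun i w => rect_count n q (e i) (f i) (he i) (hf i) (hel i) (hfl i) θ hθ0 w)
    (fun i => by
      rw [Finset.card_univ, Fintype.card_prod, Fintype.card_fin]
      push_cast
      exact le_of_eq (by ring))
  have heq : ∀ s : Fin n → Fin q × Fin q, (fun i => α ^ (e i (s i).1 * f i (s i).2)) =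
      fun i => Complex.exp (θ * (e i (s i).1 * f i (s i).2)) := by
    intro s
    funext i
    rw [Complex.cpow_def_of_ne_zero h0]
  simp only [heq]
  rw [Fintype.piFinset_univ] at hcount
  refine hcount.trans (le_of_eq ?_)
  rcases Nat.eq_zero_or_pos n with hn | hn
  · subst hn
    simp
  · rcases Nat.eq_zero_or_pos q with hq | hq
    · subst hq
      have h5 : (2 * (n : ℝ) - 1 / (mr n : ℝ)) ≠ 0 := by
        have h6 : 1 / (mr n : ℝ) ≤ 1 := by
          rw [div_le_one (by linarith)]
          exact hmR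
        have h7 : (1 : ℝ) ≤ n := by exact_mod_cast hn
        linarith
      have h6 : (2 - 1 / (mr n : ℝ)) ≠ 0 := by
        have h6 : 1 / (mr n : ℝ) ≤ 1 := by
          rw [div_le_one (by linarith)]
          exact hmR
        linarith
      rw [Nat.cast_zero, Real.zero_rpow h5, Real.zero_rpow h6]
      ring
    · have hq0 : (0 : ℝ) < q := by exact_mod_cast hq
      have h4 : ((q : ℝ) ^ 2) ^ (n - 1) * (q : ℝ) ^ (2 - 1 / (mr n : ℝ)) =
          (q : ℝ) ^ (2 * (n : ℝ) - 1 / (mr n : ℝ)) := by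
        rw [← pow_mul, ← Real.rpow_natCast, ← Real.rpow_add hq0]
        congr 1
        rw [Nat.cast_mul, Nat.cast_sub hn]
        push_cast
        ring
      rw [← h4]
      ring

end Pool.Agent.Results.MP_23715a_nt.ProductTuples
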