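import Pool.Agent.Helper18.RC.Sparse
import Pool.Agent.Helper18.RC.HL

/-!
# Algebraic independence of `log α` and `α ^ β`, `β` in `n` pure fields, for almost all `n`-tuples

`RadicalTuples.result`: for every `n` and `ε > 0` there is `X₀` such that for every `X ≥ X₀`, all rational
non-integral `ρ_1, ..., ρ_n` and all algebraic `α ≠ 0, 1`, all but `ε X ^ n` of the `n`-tuples
`(D_1, ..., D_n)` of squarefree integers `D_i ≠ 1`, `|D_i| ≤ X`, are such that for all rational `a_i` and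
`b_i ≠ 0` the numbers `log α, α ^ β_1, ..., α ^ β_n`, `β_i = a_i + b_i D_i ^ ρ_i`, are algebraically
independent. For `ρ_i = 1 / 2` the `β_i` are all the irrational elements of `ℚ(√D_i)`.
-/

namespace Pool.Agent.Results.MP_23715a_nt.RadicalTuples

open Pool.Agent.Helper18.RC

open scoped Classical in
theorem result (n : ℕ) (ε : ℝ) (hε : 0 < ε) : ∃ X₀ : ℕ, ∀ X : ℕ, X₀ ≤ X →
    ∀ ρ : Fin n → ℚ, (∀ (i : Fin n) (z : ℤ), (z : ℚ) ≠ ρ i) →
    ∀ α : ℂ, IsAlgebraic ℚ α → α ≠ 0 → α ≠ 1 →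
      ((((Fintype.piFinset fun _ : Fin n =>
          (Finset.Icc (-(X : ℤ)) X).filter fun D : ℤ => Squarefree D ∧ D ≠ 1).filter
        fun D : Fin n → ℤ => ∃ a b : Fin n → ℚ, (∀ i, b i ≠ 0) ∧
          ¬ AlgebraicIndependent ℚ (Fin.cons (Complex.log α)
            (fun i => α ^ ((a i : ℂ) + (b i : ℂ) * (D i : ℂ) ^ ((ρ i : ℚ) : ℂ))) :
              Fin (n + 1) → ℂ)).card : ℕ) : ℝ) ≤ ε * (X : ℝ) ^ n := by
  have hε' : 0 < ε / (2 * (n + 1) * 3 ^ n) := by positivity
  obtain ⟨X₀, hX₀⟩ := sparse n (ε / (2 * (n + 1) * 3 ^ n)) hε'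
  refine ⟨X₀ + 1, fun X hX ρ hρ α hα h0 h1 => ?_⟩
  set θ := Complex.log α with hθ
  have hexp : Complex.exp θ = α := Complex.exp_log h0
  have hθ0 : θ ≠ 0 := by
    intro h
    rw [h, Complex.exp_zero] at hexp
    exact h1 hexp.symm
  have htr : Transcendental ℚ θ := fun h => hermite_lindemann hθ0 h (by rw [hexp]; exact hα)
  have hX1 : (1 : ℝ) ≤ X := by
    have : 1 ≤ X := by omega
    exact_mod_cast this
  have hcount := count_bad (ι := ℤ) θ htr n (2 * (ε / (2 * (n + 1) * 3 ^ n)) * X) (3 * X)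
    (by positivity) (by positivity) n le_rfl
    (fun _ : Fin n => (Finset.Icc (-(X : ℤ)) X).filter fun D : ℤ => Squarefree D ∧ D ≠ 1)
    (fun i D => Complex.exp (θ * (D : ℂ) ^ ((ρ i : ℚ) : ℂ)))
    (fun i w => hX₀ X (by omega) (ρ i) (hρ i) θ hθ0 w)
    (fun i => by
      have h2 : ((Finset.Icc (-(X : ℤ)) X).filter fun D : ℤ => Squarefree D ∧ D ≠ 1).card ≤
          2 * X + 1 := by
        refine (Finset.card_filter_le _ _).trans ?_
        rw [Int.card_Icc]
        omega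
      have h3 : (((Finset.Icc (-(X : ℤ)) X).filter fun D : ℤ => Squarefree D ∧ D ≠ 1).card : ℝ) ≤
          2 * X + 1 := by exact_mod_cast h2
      linarith)
  refine le_trans ?_ (hcount.trans ?_)
  · refine Nat.cast_le.2 (Finset.card_le_card ?_)
    intro D hD
    rw [Finset.mem_filter] at hD ⊢
    refine ⟨hD.1, fun hind => ?_⟩
    obtain ⟨a, b, hb, hnot⟩ := hD.2
    apply hnot
    have h2 := transfer_exp θ (by rw [hexp]; exact hα) (fun i => (D i : ℂ) ^ ((ρ i : ℚ) : ℂ)) a b hb hind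
    have h3 : (fun i => α ^ ((a i : ℂ) + (b i : ℂ) * (D i : ℂ) ^ ((ρ i : ℚ) : ℂ))) =
        fun i => Complex.exp (θ * ((a i : ℂ) + (b i : ℂ) * (D i : ℂ) ^ ((ρ i : ℚ) : ℂ))) := by
      funext i
      rw [Complex.cpow_def_of_ne_zero h0]
    rw [h3]
    exact h2
  · rcases Nat.eq_zero_or_pos n with hn | hn
    · subst hn
      simp only [Nat.cast_zero, zero_mul, pow_zero, mul_one]
      exact hε.le
    · have h4 : (X : ℝ) ^ (n - 1) * X = (X : ℝ) ^ n := by
        rw [← pow_succ]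
        congr 1
        omega
      have h5 : (3 : ℝ) ^ (n - 1) ≤ 3 ^ n := pow_le_pow_right₀ (by norm_num) (by omega)
      have hn' : (0 : ℝ) < n := by exact_mod_cast hn
      calc (n : ℝ) * (3 * X) ^ (n - 1) * (2 * (ε / (2 * (n + 1) * 3 ^ n)) * X)
          = ((n : ℝ) / (n + 1)) * (3 ^ (n - 1) / 3 ^ n) * ε * ((X : ℝ) ^ (n - 1) * X) := by
            rw [mul_pow]
            field_simp
        _ ≤ 1 * 1 * ε * ((X : ℝ) ^ (n - 1) * X) := by
            have h6 : (n : ℝ) / (n + 1) ≤ 1 := by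
              rw [div_le_one (by linarith)]
              linarith
            have h7 : (3 : ℝ) ^ (n - 1) / 3 ^ n ≤ 1 := by
              rw [div_le_one (by positivity)]
              exact h5
            gcongr
        _ = ε * (X : ℝ) ^ n := by rw [h4]; ring

end Pool.Agent.Results.MP_23715a_nt.RadicalTuples
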